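import Pool.Agent.H911R3.Seg6

/-! A compact connected Riemannian symmetric space of dimension 5 whose two-number is 8 and whose
total mod 2 Betti number is at least 10. -/

namespace Pool.Agent.Results.MP_efd99a_gt.TwoNumberNeBetti

open Pool.Agent.Helper381 Bundle Manifold
open scoped ContDiff

/-- There is a compact connected smooth Riemannian manifold `M` of dimension `5` (a metric space
whose distance is the Riemannian distance of a smooth Riemannian metric) which is a symmetric
space, whose two-number is `8`, and whose total Betti number with coefficients in `ℤ/2` is at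
least `10`; in particular the two-number of `M` is not `dim H(M; ℤ/2)`. -/
theorem result :
    ∃ (E : Type) (_ : NormedAddCommGroup E) (_ : NormedSpace ℝ E) (M : Type) (_ : MetricSpace M)
      (_ : ChartedSpace E M) (_ : IsManifold 𝓘(ℝ, E) ∞ M)
      (_ : RiemannianBundle (fun x : M => TangentSpace 𝓘(ℝ, E) x)),
      FiniteDimensional ℝ E ∧ Module.finrank ℝ E = 5 ∧
      IsContMDiffRiemannianBundle 𝓘(ℝ, E) ∞ E (fun x : M => TangentSpace 𝓘(ℝ, E) x) ∧
      IsRiemannianManifold 𝓘(ℝ, E) M ∧ CompactSpace M ∧ ConnectedSpace M ∧ IsSymmetric M ∧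
      twoNumber M = 8 ∧ 10 ≤ totalBetti (ZMod 2) M ∧ twoNumber M ≠ totalBetti (ZMod 2) M := by
  refine ⟨Pool.Agent.H911R3.Seg.E, inferInstance, inferInstance, Pool.Agent.H911R3.Seg.M,
    Pool.Agent.H911R3.Seg.mM, inferInstance, inferInstance, Pool.Agent.H911R3.Seg.rb,
    inferInstance, by simp, Pool.Agent.H911R3.Seg.smoothBundle, Pool.Agent.H911R3.Seg.riemM,
    Pool.Agent.H911R3.Seg.compM, Pool.Agent.H911R3.Seg.connM, Pool.Agent.H911R3.Seg.isSymmetric_M,
    Pool.Agent.H911R3.Seg.twoNumber_eq, Pool.Agent.H911R3.Seg.betti_M, ?_⟩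
  intro h
  have h1 := Pool.Agent.H911R3.Seg.betti_M
  have h2 := Pool.Agent.H911R3.Seg.twoNumber_eq
  rw [← h, h2] at h1
  exact absurd h1 (by decide)

end Pool.Agent.Results.MP_efd99a_gt.TwoNumberNeBetti
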